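import Mathlib

namespace Pool.Agent.Results.MP_9de7c4_an.Many

open Polynomial Finset Filter Topology Real

/-- The darga. -/
noncomputable def darga (p : ℂ[X]) : ℕ := p.natTrailingDegree + p.natDegree

/-- The parameters `α > 0` for which `α (x ^ n + 1) + p` is circle rooted. -/
def S (p : ℂ[X]) : Set ℝ := {α | 0 < α ∧ ∀ z : ℂ, α * (z ^ darga p + 1) + p.eval z = 0 → ‖z‖ = 1}

lemma lag {f : ℝ[X]} (h : ∀ z : ℂ, aeval z f = 0 → z.im = 0) (y : ℝ) :
    f.eval y * f.derivative.derivative.eval y ≤ f.derivative.eval y ^ 2 := by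
  obtain ⟨s, hs⟩ := splits_iff_exists_multiset.1 (Splits.of_splits_map (f := f) (algebraMap ℝ ℂ)
    (IsAlgClosed.splits _) fun a ha => ⟨a.re, Complex.ext rfl (by
      simpa using (h a (by rw [← eval_map_algebraMap]; exact (mem_roots'.1 ha).2)).symm)⟩)
  rw [hs]
  generalize f.leadingCoeff = c
  clear hs
  induction s using Multiset.induction_on with
  | empty => simp
  | cons a s ih =>
    rw [Multiset.map_cons, Multiset.prod_cons, mul_left_comm]
    generalize C c * _ = g at ih ⊢
    simp only [derivative_mul, derivative_add, derivative_X_sub_C, one_mul, eval_add, eval_mul,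
      eval_sub, eval_X, eval_C]
    nlinarith [mul_le_mul_of_nonneg_left ih (sq_nonneg (y - a)), sq_nonneg (g.eval y)]

lemma persist (s : Finset ℝ) (hs : ∀ r ∈ s, |r| < 2) {c : ℝ} (hc : c ≠ 0) (w : ℝ[X])
    (hw : w.natDegree ≤ #s) : ∀ᶠ ε in 𝓝 (0 : ℝ), ∀ z : ℂ,
      aeval z (C c * ∏ r ∈ s, (X - C r) + C ε * w) = 0 → ∃ t : ℝ, |t| ≤ 2 ∧ z = t := by
  obtain ⟨δ, ⟨h1, h2⟩, δ0⟩ := ((((eventually_all_finset s).2 fun r hr => (show ∀ᶠ δ in 𝓝 (0 : ℝ),
    δ < 2 - |r| from eventually_lt_nhds (sub_pos.2 (hs r hr)))).and ((eventually_all_finset s).2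
      fun r _ => (eventually_all_finset (s.erase r)).2 fun k hk => (show ∀ᶠ δ in 𝓝 (0 : ℝ),
        δ < |r - k| / 2 from eventually_lt_nhds (half_pos (abs_pos.2 (sub_ne_zero.2
          (ne_of_mem_erase hk).symm)))))).filter_mono nhdsWithin_le_nhds |>.and
            (self_mem_nhdsWithin (s := Set.Ioi 0))).exists
  have δ0 : 0 < δ := δ0
  let f := fun ε : ℝ => C c * ∏ r ∈ s, (X - C r) + C ε * w
  have key : ∀ r ∈ s, ∀ᶠ ε in 𝓝 (0 : ℝ), (f ε).eval (r - δ) * (f ε).eval (r + δ) < 0 := fun r hr => by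
    refine ContinuousAt.eventually_lt (by simp only [f, eval_add, eval_mul, eval_C]; fun_prop)
      continuousAt_const ?_
    simp only [f, eval_add, eval_mul, eval_C, zero_mul, add_zero, eval_prod, eval_sub, eval_X]
    rw [mul_mul_mul_comm, ← prod_mul_distrib, ← mul_prod_erase s _ hr]
    refine mul_neg_of_pos_of_neg (mul_self_pos.2 hc) (mul_neg_of_neg_of_pos (by nlinarith)
      (prod_pos fun k hk => ?_))
    nlinarith [h2 r hr k hk, sq_abs (r - k)]
  have ne : ∀ᶠ ε in 𝓝 (0 : ℝ), (f ε).eval 2 ≠ 0 := by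
    refine ContinuousAt.eventually_ne (by simp only [f, eval_add, eval_mul, eval_C]; fun_prop) ?_
    simp only [f, eval_add, eval_mul, eval_C, zero_mul, add_zero, eval_prod, eval_sub, eval_X]
    exact mul_ne_zero hc (prod_ne_zero_iff.2 fun r hr => (sub_pos.2 (abs_lt.1 (hs r hr)).2).ne')
  filter_upwards [(eventually_all_finset s).2 key, ne] with ε hε h0 z hz
  have : ∀ r ∈ s, ∃ t, |t - r| ≤ δ ∧ (f ε).eval t = 0 := fun r hr => by
    obtain ⟨t, a, b⟩ := intermediate_value_uIcc (a := r - δ) (b := r + δ) (f := fun t => (f ε).eval t)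
      (f ε).continuous.continuousOn (show 0 ∈ _ from by
        rcases mul_neg_iff.1 (hε r hr) with h | h
        exacts [Set.mem_uIcc_of_ge h.2.le h.1.le, Set.mem_uIcc_of_le h.1.le h.2.le])
    rw [Set.uIcc_of_le (by linarith)] at a
    exact ⟨t, abs_le.2 ⟨by linarith [a.1], by linarith [a.2]⟩, b⟩
  choose! u hu hu' using this
  by_contra! hn
  refine h0 (congrArg (eval 2) (Polynomial.map_eq_zero (algebraMap ℝ ℂ) |>.1
    (eq_zero_of_natDegree_lt_card_of_eval_eq_zero' _ (insert z (s.image fun r => (u r : ℂ)))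
      (fun x hx => ?_) ?_)) |>.trans eval_zero)
  · rw [eval_map_algebraMap]
    rcases mem_insert.1 hx with rfl | hx
    · exact hz
    · obtain ⟨r, hr, rfl⟩ := mem_image.1 hx
      exact (aeval_algebraMap_apply_eq_algebraMap_eval _ _).trans (by simp [hu' r hr])
  · rw [card_insert_of_notMem, card_image_of_injOn, natDegree_map, Nat.lt_succ_iff]
    · exact natDegree_add_le_of_degree_le ((natDegree_C_mul_le _ _).trans (by
        simp [natDegree_finsetProd_X_sub_C_eq_card])) ((natDegree_C_mul_le _ _).trans hw)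
    · intro a ha b hb e
      by_contra ab
      have e : u a = u b := Complex.ofReal_injective e
      have := abs_sub_le a (u a) b
      rw [abs_sub_comm a (u a)] at this
      linarith [h2 a ha b (mem_erase.2 ⟨Ne.symm ab, hb⟩), hu a ha, e ▸ hu b hb]
    · intro hz
      obtain ⟨r, hr, rfl⟩ := mem_image.1 hz
      refine hn _ ?_ rfl
      linarith [abs_sub_abs_le_abs_sub (u r) r, hu r hr, h1 r hr]

noncomputable def r (K j : ℕ) : ℝ := 2 * cos ((2 * j + 1) * π / (2 * (K + 1)))

lemma anti (K : ℕ) {i j : ℕ} (h : i < j) (hj : j ≤ K) : -2 < r K j ∧ r K j < r K i ∧ r K i < 2 := by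
  have a : (i : ℝ) < j := by exact_mod_cast h
  have b : (j : ℝ) ≤ K := by exact_mod_cast hj
  have c : (2 * j + 1) * π / (2 * (K + 1)) < π := by
    rw [div_lt_iff₀ (by positivity)]; nlinarith [pi_pos]
  have d : (2 * i + 1) * π / (2 * (K + 1)) < (2 * j + 1) * π / (2 * (K + 1)) := by gcongr
  have := cos_lt_cos_of_nonneg_of_le_pi (by positivity) le_rfl c
  have := cos_lt_cos_of_nonneg_of_le_pi (by positivity) c.le d
  have := cos_lt_cos_of_nonneg_of_le_pi le_rfl (d.trans c).le (by positivity)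
  simp only [r, cos_pi, cos_zero] at *
  exact ⟨by linarith, by linarith, by linarith⟩

lemma fac (K : ℕ) (z : ℂ) : ∏ j ∈ range (K + 1), (z ^ 2 - r K j * z + 1) = z ^ (2 * (K + 1)) + 1 := by
  have k0 : (K + 1 : ℂ) ≠ 0 := by norm_cast
  have := congrArg (eval z) (X_pow_sub_C_eq_prod (Complex.isPrimitiveRoot_exp (2 * (K + 1)) (by omega))
    (α := Complex.exp (π * Complex.I / (2 * (K + 1)))) (a := -1) (by omega) (by
      rw [← Complex.exp_nat_mul, ← Complex.exp_pi_mul_I]; congr 1; push_cast; field_simp))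
  simp only [eval_sub, eval_pow, eval_X, eval_C, sub_neg_eq_add, eval_prod, ← Complex.exp_nat_mul,
    ← Complex.exp_add] at this
  have rf : ∀ g : ℕ → ℂ, ∏ j ∈ range (K + 1 + (K + 1)), g j =
      ∏ j ∈ range (K + 1), g j * g (K + 1 + (K + 1 - 1 - j)) := fun g => by
    rw [prod_range_add, ← prod_range_reflect (fun j => g (K + 1 + j)), ← prod_mul_distrib]
  rw [this, two_mul (K + 1), rf]
  refine prod_congr rfl fun j hj => ?_
  obtain ⟨i, rfl⟩ := Nat.exists_eq_add_of_le (Nat.lt_succ_iff.1 (mem_range.1 hj))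
  rw [show j + i + 1 - 1 - j = i by omega]
  set θ : ℂ := (2 * j + 1) * π / (2 * ((j + i : ℕ) + 1))
  have e1 : (j : ℂ) * (2 * π * Complex.I / (j + i + 1 + (j + i + 1) : ℕ)) +
      π * Complex.I / (2 * ((j + i : ℕ) + 1)) = θ * Complex.I := by
    simp only [θ, ← two_mul]; push_cast at k0 ⊢; field_simp
  have e2 : ((j + i + 1 + i : ℕ) : ℂ) * (2 * π * Complex.I / (j + i + 1 + (j + i + 1) : ℕ)) +
      π * Complex.I / (2 * ((j + i : ℕ) + 1)) = -θ * Complex.I + 2 * π * Complex.I := by
    simp only [θ, ← two_mul]; push_cast at k0 ⊢; field_simp; ring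
  have e3 : (r (j + i) j : ℂ) = 2 * Complex.cos θ := by simp [r, θ]
  rw [e1, e2, Complex.exp_periodic, e3, Complex.two_cos]
  have : Complex.exp (θ * Complex.I) * Complex.exp (-θ * Complex.I) = 1 := by
    rw [← Complex.exp_add]; simp
  linear_combination -this

theorem result (K : ℕ) : ∃ p : ℂ[X], p ≠ 0 ∧ p.natDegree < darga p ∧
    (∀ x : ℂ, x ≠ 0 → x ^ darga p * p.eval x⁻¹ = (p.map (starRingEnd ℂ)).eval x) ∧
    ∃ f : Fin K → ConnectedComponents (S p), f.Injective := by
  let ρ := fun j => r K (j + 1)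
  let H : ℝ[X] := ∏ j ∈ range K, (X - C (ρ j))
  let W : ℝ[X] := ∑ i ∈ range K, ∏ j ∈ (range K).erase i, (X - C (ρ j))
  let F := fun α ε : ℝ => (C α * (X - C (r K 0)) + 1) * H + C ε * W
  let b := fun j => (r K 0 - ρ j)⁻¹
  let t := fun j => (r K j + ρ j) / 2
  let a := fun j => (r K 0 - t j)⁻¹
  have an := fun i j => anti K (i := i) (j := j)
  have r0 : ∀ j < K, r K j ≤ r K 0 := fun j h => (Nat.eq_zero_or_pos j).elim (fun e => by rw [e])
    fun e => (an 0 j e h.le).2.1.le
  have a0 : ∀ j < K, 0 < r K 0 - t j := fun j h => by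
    simp only [t, ρ]; linarith [r0 j h, (an j (j + 1) (by omega) h).2.1]
  have inj : Set.InjOn ρ (range K) := fun i hi j hj e => by
    have hi := mem_range.1 hi
    have hj := mem_range.1 hj
    rcases lt_trichotomy i j with h | h | h
    exacts [absurd e (an _ _ (Nat.succ_lt_succ h) hj).2.1.ne', h,
      absurd e (an _ _ (Nat.succ_lt_succ h) hi).2.1.ne]
  have E1 : ∀ j ∈ range K, ∀ᶠ ε in 𝓝[>] (0 : ℝ), ∀ z : ℂ, aeval z (F (a j) ε) = 0 →
      ∃ t : ℝ, |t| ≤ 2 ∧ z = t := fun j hj => by
    have hj := mem_range.1 hj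
    have := an j (j + 1) (by omega) hj
    have nm : t j ∉ (range K).image ρ := fun h => by
      obtain ⟨i, hi, e⟩ := mem_image.1 h
      have hi := mem_range.1 hi
      simp only [t, ρ] at e
      rcases lt_trichotomy (i + 1) j with h | h | h
      · linarith [(an _ _ h hj.le).2.1]
      · rw [h] at e; linarith
      · rcases (Nat.le_of_lt_succ h).eq_or_lt with h | h
        · rw [← h] at e; linarith
        · linarith [(an _ _ (Nat.succ_lt_succ h) hi).2.1]
    refine ((persist (insert (t j) ((range K).image ρ)) (fun x hx => ?_) (inv_pos.2 (a0 j hj)).ne' W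
      ?_).mono fun ε h z hz => h z ?_).filter_mono nhdsWithin_le_nhds
    · rw [abs_lt]
      rcases mem_insert.1 hx with rfl | hx
      · simp only [t, ρ]; constructor <;> linarith
      · obtain ⟨i, hi, rfl⟩ := mem_image.1 hx
        have := an 0 (i + 1) (by omega) (mem_range.1 hi)
        exact ⟨this.1, this.2.1.trans this.2.2⟩
    · rw [card_insert_of_notMem nm, card_image_of_injOn inj]
      refine natDegree_sum_le_of_forall_le _ _ fun i _ => ?_
      rw [natDegree_finsetProd_X_sub_C_eq_card]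
      exact card_erase_le.trans (Nat.le_succ _)
    · rw [← hz, prod_insert nm, prod_image inj, ← mul_assoc]
      refine congrArg (fun u => aeval z (u * H + C ε * W)) ?_
      rw [← C_1, ← inv_mul_cancel₀ (a0 j hj).ne', C_mul, C_sub]
      simp only [a]; ring
  have E2 : ∀ j ∈ range K, ∀ᶠ ε in 𝓝[>] (0 : ℝ), ¬ ∀ z : ℂ, aeval z (F (b j) ε) = 0 → z.im = 0 :=
    fun j hj => by
      have b0 : 0 < r K 0 - ρ j := sub_pos.2 (an 0 (j + 1) (by omega) (mem_range.1 hj)).2.1
      set G := ∏ i ∈ (range K).erase j, (X - C (ρ i)) with hG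
      have g0 : G.eval (ρ j) ≠ 0 := by
        rw [hG, eval_prod]
        exact prod_ne_zero_iff.2 fun i hi => by
          simpa [sub_eq_zero] using fun e => ne_of_mem_erase hi (inj (mem_of_mem_erase hi) hj e.symm)
      have w0 : W.eval (ρ j) = G.eval (ρ j) := by
        rw [eval_finset_sum, sum_eq_single_of_mem j hj fun i _ h => ?_]
        rw [eval_prod]
        exact prod_eq_zero (mem_erase.2 ⟨h.symm, hj⟩) (by simp)
      have eF : ∀ ε, F (b j) ε = C (b j) * (X - C (ρ j)) * ((X - C (ρ j)) * G) + C ε * W := fun ε => by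
        rw [hG, mul_prod_erase _ (fun i => X - C (ρ i)) hj]
        refine congrArg (· * H + C ε * W) ?_
        rw [← C_1, ← inv_mul_cancel₀ b0.ne', C_mul, C_sub]
        simp only [b]; ring
      have : ∀ᶠ ε in 𝓝 (0 : ℝ), ε * (W.derivative.eval (ρ j) ^ 2 - G.eval (ρ j) *
          W.derivative.derivative.eval (ρ j)) < 2 * b j * G.eval (ρ j) ^ 2 :=
        ContinuousAt.eventually_lt (by fun_prop) continuousAt_const (by
          rw [zero_mul]; exact mul_pos (mul_pos two_pos (inv_pos.2 b0)) (by positivity))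
      filter_upwards [this.filter_mono nhdsWithin_le_nhds, self_mem_nhdsWithin] with ε h e0 hz
      have := lag hz (ρ j)
      simp [eF, w0] at this
      nlinarith [mul_lt_mul_of_pos_left h e0]
  obtain ⟨ε, e1, e2⟩ := (((eventually_all_finset _).2 E1).and ((eventually_all_finset _).2 E2)).exists
  let q := fun j => (X ^ 2 - C (ρ j) * X + 1 : ℝ[X])
  let p1 := ∏ j ∈ range K, q j + C ε * ∑ i ∈ range K, X * ∏ j ∈ (range K).erase i, q j
  have qd : ∀ j, (q j).Monic ∧ (q j).natDegree = 2 := fun j => ⟨by simp only [q]; monicity!, by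
    simp only [q]; compute_degree!⟩
  have qs : ∀ s : Finset ℕ, (∏ j ∈ s, q j).natDegree = #s * 2 := fun s => by
    rw [natDegree_prod_of_monic _ _ fun j _ => (qd j).1]; simp [(qd _).2]
  have p0 : p1.coeff 0 = 1 := by simp [p1, q, coeff_zero_eq_eval_zero, eval_prod, eval_finset_sum]
  have pn : p1 ≠ 0 := fun h => by simp [h] at p0
  have pd : p1.natDegree = K * 2 := by
    rcases K.eq_zero_or_pos with rfl | k0
    · simp [p1]
    rw [natDegree_add_eq_left_of_natDegree_lt, qs, card_range]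
    refine ((natDegree_C_mul_le _ _).trans (natDegree_sum_le_of_forall_le (n := K * 2 - 1) _ _
      fun i hi => natDegree_mul_le.trans ?_)).trans_lt (by rw [qs, card_range]; omega)
    rw [qs, card_erase_of_mem hi, card_range, natDegree_X]; omega
  let p := (p1 * X).map (algebraMap ℝ ℂ)
  have d1 : p.natDegree = K * 2 + 1 := by rw [natDegree_map, natDegree_mul_X pn, pd]
  have d2 : darga p = 2 * (K + 1) := by
    have : (p1.map (algebraMap ℝ ℂ)).coeff 0 ≠ 0 := by simp [p0]
    rw [darga, d1]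
    simp only [p]
    rw [Polynomial.map_mul, map_X, ← pow_one X,
      natTrailingDegree_mul_X_pow fun h => by simp [h] at this,
      natTrailingDegree_eq_zero.2 (.inr this)]
    omega
  have ev : ∀ z : ℂ, z ≠ 0 → p.eval z = z ^ (K + 1) * aeval (z + z⁻¹) (H + C ε * W) := fun z hz => by
    have e : ∀ j, aeval z (q j) = z * aeval (z + z⁻¹) (X - C (ρ j)) := fun j => by
      simp [q]; field_simp; ring
    have : ∀ i ∈ range K, z * ∏ j ∈ (range K).erase i, z = z ^ K := fun i hi => by
      rw [mul_prod_erase _ (fun _ => z) hi]; simp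
    simp only [p, p1, H, W, eval_map_algebraMap, map_add, map_mul, map_prod, map_sum, e, aeval_X,
      prod_mul_distrib, ← mul_assoc, aeval_C]
    rw [sum_congr rfl fun i hi => by rw [this i hi], ← mul_sum, prod_const, card_range]
    ring
  have ev2 : ∀ (α : ℝ) (z : ℂ), z ≠ 0 → α * (z ^ darga p + 1) + p.eval z =
      z ^ (K + 1) * aeval (z + z⁻¹) (F α ε) := fun α z hz => by
    have e : ∀ c : ℝ, z ^ 2 - c * z + 1 = z * aeval (z + z⁻¹) (X - C c) := fun j => by
      simp; field_simp; ring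
    rw [d2, ← fac, prod_range_succ', ev z hz]
    simp only [F, H, e, prod_mul_distrib, map_add, map_mul, map_prod, prod_const, card_range, map_one,
      aeval_C, ρ, Complex.coe_algebraMap]
    ring
  have hA : ∀ j < K, a j ∈ S p := fun j hj => ⟨inv_pos.2 (a0 j hj), fun z hz => by
    have z0 : z ≠ 0 := by
      rintro rfl
      rw [d2] at hz
      simp [p] at hz
      exact (inv_pos.2 (a0 j hj)).ne' hz
    rw [ev2 _ z z0, mul_eq_zero, or_iff_right (pow_ne_zero _ z0)] at hz
    obtain ⟨u, u2, hu⟩ := e1 j (mem_range.2 hj) _ hz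
    have : z * z + 1 = u * z := by rw [← hu]; field_simp
    have h1 := congrArg Complex.re this
    have h2 := congrArg Complex.im this
    simp at h1 h2
    rw [← sq_eq_sq₀ (norm_nonneg _) zero_le_one, Complex.sq_norm, Complex.normSq_apply]
    by_cases hq : z.im = 0
    · rw [hq] at h1 ⊢
      have : u ^ 2 ≤ 2 ^ 2 := sq_le_sq' (abs_le.1 u2).1 (abs_le.1 u2).2
      have : (z.re * z.re - 1) ^ 2 ≤ 0 := by nlinarith [sq_nonneg z.re]
      nlinarith
    · have : u = 2 * z.re := mul_left_cancel₀ hq (by linarith)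
      rw [this] at h1
      linarith⟩
  have hB : ∀ j < K, b j ∉ S p := fun j hj h => e2 j (mem_range.2 hj) fun y hy => by
    obtain ⟨s, hs⟩ := IsAlgClosed.exists_pow_nat_eq (y ^ 2 - 4) two_pos
    have m : (y + s) / 2 * ((y - s) / 2) = 1 := by linear_combination -hs / 4
    have z0 := left_ne_zero_of_mul_eq_one m
    have e : (y + s) / 2 + ((y + s) / 2)⁻¹ = y := by rw [inv_eq_of_mul_eq_one_right m]; ring
    have := h.2 _ (by rw [ev2 _ _ z0, e, hy, mul_zero])
    rw [← e, Complex.inv_eq_conj this, Complex.add_im, Complex.conj_im, add_neg_cancel]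
  refine ⟨p, fun h => by simp [h] at d1, by omega, fun x hx => ?_, fun j =>
    ConnectedComponents.mk ⟨a j, hA j j.2⟩, fun i j e => ?_⟩
  · have : p.map (starRingEnd ℂ) = p := by
      ext; rw [coeff_map, coeff_map]; exact Complex.conj_ofReal _
    rw [this, ev x hx, ev _ (inv_ne_zero hx), d2, inv_inv, add_comm x⁻¹, two_mul, pow_add, mul_assoc,
      inv_pow, mul_inv_cancel_left₀ (pow_ne_zero _ hx)]
  · wlog h : i < j generalizing i j
    · exact (not_lt.1 h).eq_or_lt.elim Eq.symm fun h => (this _ _ e.symm h).symm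
    have hp := (isPreconnected_connectedComponent (x := (⟨a i, hA i i.2⟩ : S p))).image _
      continuous_subtype_val.continuousOn
    have c1 := (an i (i + 1) (by omega) i.2).2.1
    have c2 := (an j (j + 1) (by omega) j.2).2.1
    have c3 : r K j ≤ r K (i + 1) := (Nat.succ_le_of_lt h).eq_or_lt.elim (fun e => by rw [← e])
      fun e => (an _ _ e j.2.le).2.1.le
    have c4 := a0 i i.2
    obtain ⟨x, -, hx⟩ := hp.Icc_subset ⟨_, ConnectedComponents.coe_eq_coe'.1 e.symm, rfl⟩
      ⟨_, mem_connectedComponent, rfl⟩ (show b i ∈ _ from ⟨by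
        simp only [a, b, t, ρ] at *; gcongr <;> linarith, by
        simp only [a, b, t, ρ] at *; gcongr; linarith⟩)
    exact (hB i i.2 (hx ▸ x.2)).elim

end Pool.Agent.Results.MP_9de7c4_an.Many
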